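import Pool.Agent.Y142.ZI.Stm

/-! # Project OI (helper282), task CYC: a full cycle on the roots of a polynomial close to `X ^ m - c` -/

set_option autoImplicit false

open Polynomial
open Pool.Agent.Y142.ZI

namespace Pool.Agent.Q208.OI.CYC

section ultra

variable {L : Type} [NormedField L] [IsUltrametricDist L]

/-- powers of a number of norm at most `1` -/
lemma pow_sub_one_le {u : L} (hu : ‖u‖ ≤ 1) (i : ℕ) : ‖u ^ i - 1‖ ≤ ‖u - 1‖ := by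
  rw [← geom_sum_mul, norm_mul]
  have h1 : ‖∑ j ∈ Finset.range i, u ^ j‖ ≤ 1 :=
    IsUltrametricDist.norm_sum_le_of_forall_le_of_nonneg zero_le_one fun j _ => by
      rw [norm_pow]
      exact pow_le_one₀ (norm_nonneg _) hu
  calc ‖∑ j ∈ Finset.range i, u ^ j‖ * ‖u - 1‖ ≤ 1 * ‖u - 1‖ :=
        mul_le_mul_of_nonneg_right h1 (norm_nonneg _)
    _ = _ := one_mul _

lemma pow_sub_pow_le {r s : L} (hr : ‖r‖ ≤ 1) (hs : ‖s‖ ≤ 1) (i : ℕ) : ‖r ^ i - s ^ i‖ ≤ ‖r - s‖ := by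
  rw [← geom_sum₂_mul, norm_mul]
  have h1 : ‖∑ j ∈ Finset.range i, r ^ j * s ^ (i - 1 - j)‖ ≤ 1 :=
    IsUltrametricDist.norm_sum_le_of_forall_le_of_nonneg zero_le_one fun j _ => by
      rw [norm_mul, norm_pow, norm_pow]
      exact mul_le_one₀ (pow_le_one₀ (norm_nonneg _) hr) (by positivity)
        (pow_le_one₀ (norm_nonneg _) hs)
  calc ‖∑ j ∈ Finset.range i, r ^ j * s ^ (i - 1 - j)‖ * ‖r - s‖ ≤ 1 * ‖r - s‖ :=
        mul_le_mul_of_nonneg_right h1 (norm_nonneg _)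
    _ = _ := one_mul _

lemma norm_one_of_close {u : L} (hu : ‖u - 1‖ < 1) : ‖u‖ = 1 := by
  have h : ‖(u - 1) + 1‖ = max ‖u - 1‖ ‖(1 : L)‖ :=
    IsUltrametricDist.norm_add_eq_max_of_norm_ne_norm (by rw [norm_one]; exact hu.ne)
  rw [sub_add_cancel, norm_one, max_eq_right hu.le] at h
  exact h

/-- the geometric sum -/
lemma geom_norm {u : L} (hu : ‖u - 1‖ < 1) {m : ℕ} (hm : ‖(m : L)‖ = 1) :
    ‖∑ i ∈ Finset.range m, u ^ i‖ = 1 := by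
  have hu1 := norm_one_of_close hu
  have e : ∑ i ∈ Finset.range m, u ^ i = (∑ i ∈ Finset.range m, (u ^ i - 1)) + m := by
    rw [Finset.sum_sub_distrib]
    simp
  have h1 : ‖∑ i ∈ Finset.range m, (u ^ i - 1)‖ ≤ ‖u - 1‖ :=
    IsUltrametricDist.norm_sum_le_of_forall_le_of_nonneg (norm_nonneg _) fun i _ =>
      pow_sub_one_le hu1.le i
  have h2 : ‖∑ i ∈ Finset.range m, (u ^ i - 1)‖ < 1 := h1.trans_lt hu
  rw [e, IsUltrametricDist.norm_add_eq_max_of_norm_ne_norm (by rw [hm]; exact h2.ne), hm,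
    max_eq_right h2.le]

/-- the difference of two powers -/
lemma pow_diff {r s : L} {m : ℕ} (hm : ‖(m : L)‖ = 1) (hs : s ≠ 0) (h : ‖r - s‖ < ‖s‖) :
    ‖r ^ m - s ^ m‖ * ‖s‖ = ‖s‖ ^ m * ‖r - s‖ := by
  have hs0 : 0 < ‖s‖ := norm_pos_iff.2 hs
  have e2 : r / s - 1 = (r - s) / s := by field_simp
  have hu : ‖r / s - 1‖ < 1 := by
    rw [e2, norm_div, div_lt_one hs0]
    exact h
  have hg := geom_norm hu hm
  have e : r ^ m - s ^ m = s ^ m * ((∑ i ∈ Finset.range m, (r / s) ^ i) * (r / s - 1)) := by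
    rw [geom_sum_mul, mul_sub, mul_one, ← mul_pow, mul_div_cancel₀ _ hs]
  rw [e, norm_mul, norm_mul, hg, one_mul, norm_pow, e2, norm_div]
  field_simp

variable {K : Type} [NormedField K] [NormedAlgebra K L]

/-- values of a small polynomial -/
lemma small_eval (D : K[X]) {ε : ℝ} (hD : ∀ k, ‖D.coeff k‖ < ε) {r : L} (hr : ‖r‖ ≤ 1) :
    ‖aeval r D‖ < ε := by
  rw [aeval_eq_sum_range]
  obtain ⟨i, _, hi⟩ := IsUltrametricDist.exists_norm_finsetSum_le_of_nonempty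
    (t := Finset.range (D.natDegree + 1)) ⟨0, by simp⟩ (fun i => D.coeff i • r ^ i)
  refine hi.trans_lt (lt_of_le_of_lt ?_ (hD i))
  rw [norm_smul, norm_pow]
  exact mul_le_of_le_one_right (norm_nonneg _) (pow_le_one₀ (norm_nonneg _) hr)

/-- differences of values of a small polynomial -/
lemma small_diff (D : K[X]) {ε : ℝ} (hD : ∀ k, ‖D.coeff k‖ < ε) {r s : L} (hr : ‖r‖ ≤ 1)
    (hs : ‖s‖ ≤ 1) (hne : r ≠ s) : ‖aeval r D - aeval s D‖ < ε * ‖r - s‖ := by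
  rw [aeval_eq_sum_range, aeval_eq_sum_range, ← Finset.sum_sub_distrib]
  obtain ⟨i, _, hi⟩ := IsUltrametricDist.exists_norm_finsetSum_le_of_nonempty
    (t := Finset.range (D.natDegree + 1)) ⟨0, by simp⟩
    (fun i => D.coeff i • r ^ i - D.coeff i • s ^ i)
  refine hi.trans_lt ?_
  rw [← smul_sub, norm_smul]
  have h0 : 0 < ‖r - s‖ := norm_pos_iff.2 (sub_ne_zero.2 hne)
  calc ‖D.coeff i‖ * ‖r ^ i - s ^ i‖ ≤ ‖D.coeff i‖ * ‖r - s‖ :=
        mul_le_mul_of_nonneg_left (pow_sub_pow_le hr hs i) (norm_nonneg _)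
    _ < ε * ‖r - s‖ := mul_lt_mul_of_pos_right (hD i) h0

end ultra

/-- **CYC** -/
theorem t (hCLU : S_CLU) : S_CYC := by
  intro ℓ _ m c hm hm1 hc
  obtain ⟨ε0, hε0, H⟩ := hCLU ℓ Unit (fun _ => 0) (fun _ => c) (fun _ => m) (by simp)
    (fun i j h => absurd (Subsingleton.elim i j) h) (fun _ => hm) (fun _ => hc)
  have H' : ∀ R : ℚ_[ℓ][X], R.Monic → R.natDegree = m →
      (∀ k, ‖(R - (X ^ m - C c)).coeff k‖ < ε0) →
      (∀ r : PadicAlgCl ℓ, aeval r R = 0 → ‖r‖ ≤ 1) ∧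
      ∀ F : IntermediateField ℚ_[ℓ] (PadicAlgCl ℓ), Unr ℓ F → ∀ r s : PadicAlgCl ℓ,
        aeval r R = 0 → aeval s R = 0 → ‖r‖ < 1 → ‖s‖ < 1 →
        ∃ τ : PadicAlgCl ℓ ≃ₐ[F] PadicAlgCl ℓ, τ r = s := by
    intro R h1 h2 h3
    obtain ⟨_, k1, _, k2⟩ := H R h1 (by simpa using h2) (by intro k; simpa using h3 k)
    exact ⟨fun r hr => (k1 r hr).1, fun F hF r s hr hs hr1 hs1 =>
      k2 F hF () r s hr hs (by simpa using hr1) (by simpa using hs1)⟩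
  have hℓ1 : 1 < (ℓ : ℝ) := by exact_mod_cast (Fact.out : ℓ.Prime).one_lt
  have hℓ : (0 : ℝ) < (ℓ : ℝ)⁻¹ := inv_pos.2 (by linarith)
  have hℓ' : (ℓ : ℝ)⁻¹ < 1 := inv_lt_one_of_one_lt₀ hℓ1
  refine ⟨min ε0 (ℓ : ℝ)⁻¹, lt_min hε0 hℓ, ?_⟩
  intro R hR hdeg hclose F hF hζF
  obtain ⟨a, ha⟩ := IsAlgClosed.exists_pow_nat_eq (algebraMap ℚ_[ℓ] (PadicAlgCl ℓ) c) hm
  obtain ⟨ρ, hρ⟩ : ∃ ρ : ℝ, ρ = ‖a‖ := ⟨_, rfl⟩
  have hext : ∀ x : ℚ_[ℓ], ‖algebraMap ℚ_[ℓ] (PadicAlgCl ℓ) x‖ = ‖x‖ := fun x =>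
    PadicAlgCl.norm_extends ℓ x
  have hρm : ρ ^ m = (ℓ : ℝ)⁻¹ := by
    rw [hρ, ← norm_pow, ha, hext, hc]
  have hρ0 : 0 < ρ := by
    rcases (norm_nonneg a).eq_or_lt with h | h
    · rw [hρ, ← h, zero_pow hm.ne'] at hρm
      linarith
    · rw [hρ]; exact h
  have ha0 : a ≠ 0 := norm_pos_iff.1 (by rw [← hρ]; exact hρ0)
  have hρ1 : ρ < 1 := by
    by_contra h
    have := one_le_pow₀ (not_lt.1 h) (n := m)
    linarith
  have hmL : ‖(m : PadicAlgCl ℓ)‖ = 1 := by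
    rw [← map_natCast (algebraMap ℚ_[ℓ] (PadicAlgCl ℓ)) m, hext, hm1]
  have : NeZero (m : PadicAlgCl ℓ) := ⟨fun h => by rw [h, norm_zero] at hmL; exact zero_ne_one hmL⟩
  obtain ⟨ζ, hζp⟩ : ∃ ζ : PadicAlgCl ℓ, IsPrimitiveRoot ζ m :=
    HasEnoughRootsOfUnity.exists_primitiveRoot (PadicAlgCl ℓ) m
  -- roots of `R`
  have hR1 := (H' R hR hdeg fun k => (hclose k).trans_le (min_le_left _ _)).1
  obtain ⟨D, hDd⟩ : ∃ D : ℚ_[ℓ][X], D = R - (X ^ m - C c) := ⟨_, rfl⟩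
  have hD : ∀ k, ‖D.coeff k‖ < (ℓ : ℝ)⁻¹ := by
    intro k
    rw [hDd]
    exact (hclose k).trans_le (min_le_right _ _)
  have hrD : ∀ r : PadicAlgCl ℓ, aeval r R = 0 → r ^ m - a ^ m = -aeval r D := by
    intro r hr
    rw [hDd, map_sub, hr, map_sub, map_pow, aeval_X, aeval_C, ha]
    ring
  have hrn : ∀ r : PadicAlgCl ℓ, aeval r R = 0 → ‖r ^ m - a ^ m‖ < ρ ^ m := by
    intro r hr
    rw [hrD r hr, norm_neg, hρm]
    exact small_eval D hD (hR1 r hr)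
  have hrρ : ∀ r : PadicAlgCl ℓ, aeval r R = 0 → ‖r‖ = ρ := by
    intro r hr
    have h1 := hrn r hr
    have h2 : ‖(r ^ m - a ^ m) + a ^ m‖ = max ‖r ^ m - a ^ m‖ ‖a ^ m‖ :=
      IsUltrametricDist.norm_add_eq_max_of_norm_ne_norm (by
        rw [norm_pow a, ← hρ]; exact h1.ne)
    rw [sub_add_cancel, norm_pow a, ← hρ, max_eq_right h1.le, norm_pow] at h2
    exact (pow_left_inj₀ (norm_nonneg _) hρ0.le hm.ne').1 h2
  have hnear : ∀ r : PadicAlgCl ℓ, aeval r R = 0 → ∃ i : ℕ, ‖r - ζ ^ i * a‖ < ρ := by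
    intro r hr
    by_contra hno
    push Not at hno
    have h1 := hζp.pow_sub_pow_eq_prod_sub_mul r a hm
    have h2 : ρ ^ m ≤ ‖r ^ m - a ^ m‖ := by
      rw [h1, norm_prod]
      calc ρ ^ m = ∏ _η ∈ nthRootsFinset m (1 : PadicAlgCl ℓ), ρ := by
            rw [Finset.prod_const, hζp.card_nthRootsFinset]
        _ ≤ _ := by
            refine Finset.prod_le_prod (fun _ _ => hρ0.le) fun η hη => ?_
            have : NeZero m := ⟨hm.ne'⟩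
            obtain ⟨i, _, rfl⟩ := hζp.eq_pow_of_pow_eq_one ((mem_nthRootsFinset hm _).1 hη)
            exact hno i
    exact absurd (hrn r hr) (not_lt.2 h2)
  have hinj : ∀ r s p : PadicAlgCl ℓ, aeval r R = 0 → aeval s R = 0 → ‖r - p‖ < ρ →
      ‖s - p‖ < ρ → r = s := by
    intro r s p hr hs hrp hsp
    by_contra hne
    have h0 : 0 < ‖r - s‖ := norm_pos_iff.2 (sub_ne_zero.2 hne)
    have h1 : ‖r - s‖ < ‖s‖ := by
      rw [hrρ s hs]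
      have e : r - s = (r - p) + (-(s - p)) := by ring
      rw [e]
      refine (IsUltrametricDist.norm_add_le_max _ _).trans_lt (max_lt hrp ?_)
      rw [norm_neg]
      exact hsp
    have hs0 : s ≠ 0 := norm_pos_iff.1 (by rw [hrρ s hs]; exact hρ0)
    have h2 := pow_diff hmL hs0 h1
    rw [hrρ s hs] at h2
    have h3 : r ^ m - s ^ m = -(aeval r D - aeval s D) := by
      have e1 := hrD r hr
      have e2 := hrD s hs
      have e3 : r ^ m - s ^ m = (r ^ m - a ^ m) - (s ^ m - a ^ m) := by ring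
      rw [e3, e1, e2]
      ring
    have h4 := small_diff D hD (hR1 r hr) (hR1 s hs) hne
    rw [h3, norm_neg, hρm] at h2
    have h5 : (ℓ : ℝ)⁻¹ * ‖r - s‖ < (ℓ : ℝ)⁻¹ * ‖r - s‖ := by
      calc (ℓ : ℝ)⁻¹ * ‖r - s‖ = ‖aeval r D - aeval s D‖ * ρ := h2.symm
        _ ≤ ‖aeval r D - aeval s D‖ * 1 := mul_le_mul_of_nonneg_left hρ1.le (norm_nonneg _)
        _ = ‖aeval r D - aeval s D‖ := mul_one _
        _ < _ := h4
    exact lt_irrefl _ h5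
  -- the automorphism
  obtain ⟨τ, hτ⟩ : ∃ τ : PadicAlgCl ℓ ≃ₐ[F] PadicAlgCl ℓ, τ a = ζ * a := by
    have hζn : ‖ζ‖ = 1 := by
      have h1 : ‖ζ‖ ^ m = 1 := by rw [← norm_pow, hζp.pow_eq_one, norm_one]
      exact (pow_eq_one_iff_of_nonneg (norm_nonneg _) hm.ne').1 h1
    refine (H' (X ^ m - C c) (monic_X_pow_sub_C c hm.ne') natDegree_X_pow_sub_C
      (fun k => by rw [sub_self, coeff_zero, norm_zero]; exact hε0)).2 F hF a (ζ * a) ?_ ?_ ?_ ?_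
    · rw [map_sub, map_pow, aeval_X, aeval_C, ha, sub_self]
    · rw [map_sub, map_pow, aeval_X, aeval_C, mul_pow, hζp.pow_eq_one, one_mul, ha, sub_self]
    · rw [← hρ]; exact hρ1
    · rw [norm_mul, hζn, one_mul, ← hρ]; exact hρ1
  have hτζ : τ ζ = ζ := τ.commutes ⟨ζ, hζF ζ hζp.pow_eq_one⟩
  have hτn : ∀ (σ : PadicAlgCl ℓ ≃ₐ[F] PadicAlgCl ℓ) (x : PadicAlgCl ℓ), ‖σ x‖ = ‖x‖ := fun σ x =>
    (spectralNorm_eq_of_equiv (σ.restrictScalars ℚ_[ℓ]) x).symm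
  have hτk : ∀ k i : ℕ, (τ ^ k) (ζ ^ i * a) = ζ ^ (i + k) * a := by
    intro k
    induction k with
    | zero => intro i; rfl
    | succ k ih =>
      intro i
      rw [pow_succ, AlgEquiv.mul_apply, map_mul, map_pow, hτζ, hτ, ← mul_assoc, ← pow_succ, ih]
      congr 2
      omega
  have hτR : ∀ (σ : PadicAlgCl ℓ ≃ₐ[F] PadicAlgCl ℓ) (r : PadicAlgCl ℓ), aeval r R = 0 →
      aeval (σ r) R = 0 := by
    intro σ r hr
    have h1 := aeval_algHom_apply ((σ.restrictScalars ℚ_[ℓ]) : PadicAlgCl ℓ →ₐ[ℚ_[ℓ]] PadicAlgCl ℓ) r R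
    rw [hr, map_zero] at h1
    exact h1
  refine ⟨τ, fun r s hr hs => ?_⟩
  obtain ⟨i, hi⟩ := hnear r hr
  obtain ⟨j, hj⟩ := hnear s hs
  refine ⟨j + (m - 1) * i, ?_⟩
  have e : ζ ^ (i + (j + (m - 1) * i)) = ζ ^ j := by
    have e1 : i + (j + (m - 1) * i) = j + m * i := by
      obtain ⟨n, rfl⟩ : ∃ n, m = n + 1 := ⟨m - 1, by omega⟩
      rw [Nat.add_sub_cancel]
      ring
    rw [e1, pow_add, pow_mul, hζp.pow_eq_one, one_pow, mul_one]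
  refine hinj _ _ (ζ ^ j * a) (hτR _ r hr) hs ?_ hj
  rw [← e, ← hτk, ← map_sub, hτn]
  exact hi

end Pool.Agent.Q208.OI.CYC
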